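import Pool.Agent.Q44.LossLog
import Pool.Agent.Q37.FZ.Exist

/-!
# The gcd recursion with `n (n + 2m)`: the loss at the integers given by continued fractions

`f` is the first zero of the sequence `a(1) = 4 m²`, `a(n) = |a(n-1) - gcd(a(n-1), n (n + 2m))|`; its largest possible
place is `4 m² + 1`. For almost every real number `α` and all integers `(u, v) ≠ (0, 0)` the positive integers
`m = |u p + v q|` have a loss `4 m² + 1 - f > (log m) / 25` for all but finitely many convergents `p / q` of the continued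
fraction of `α`; in particular the denominators and the numerators. The same for the linear forms in the denominators
and the numerators of the simultaneous approximations of Dirichlet's quality of almost every point of `ℝ ^ d`.
-/

set_option autoImplicit false

namespace Pool.Agent.Results.MP_9227d9_nt.GoodApproximations

open Pool.Agent.Q44.CF

/-- `f` is the first zero of the sequence of the problem for `m` -/
def FirstZero (m f : ℕ) : Prop :=
  ∃ a : ℕ → ℤ, a 1 = 4 * (m : ℤ) ^ 2 ∧
    (∀ n : ℕ, 2 ≤ n →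
      a n = |a (n - 1) - ((Int.gcd (a (n - 1)) ((n : ℤ) * ((n : ℤ) + 2 * (m : ℤ)))) : ℤ)|) ∧
    IsLeast {n : ℕ | 1 ≤ n ∧ a n = 0} f

/-- the integer `m`, if it is positive, has a loss `4 m² + 1 - f > (log m) / 25` -/
def LargeLoss (m : ℕ) : Prop :=
  1 ≤ m → ∀ f : ℕ, FirstZero m f → Real.log m / 25 < 4 * (m : ℝ) ^ 2 + 1 - f

/-- **Theorem.** The loss is larger than `(log m) / 25` for all `m` given by the approximations of Dirichlet's quality of
almost all real numbers and of almost all points of `ℝ ^ d`. -/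
theorem result : AtApproximationsOfLevel (3 / 2) LargeLoss := by
  classical
  obtain ⟨C, hC, h⟩ := Pool.Agent.Q37.FZ.small (1 / 2) (by norm_num)
  have h1 : LogFewU (3 / 2) (fun n => (fun D m : ℕ => 1 ≤ m ∧ ∃ f, Pool.Agent.Q37.FZ.FirstZero m f ∧
      4 * m ^ 2 + 1 ≤ f + D) ⌊Real.log n / 25⌋₊ n) := by
    refine fewU_of_small (Bad := fun D m : ℕ => 1 ≤ m ∧ ∃ f, Pool.Agent.Q37.FZ.FirstZero m f ∧ 4 * m ^ 2 + 1 ≤ f + D)
      (C := C) ?_ (by norm_num) ?_
    · rintro D D' n hD ⟨h1, g, h3, h4⟩
      exact ⟨h1, g, h3, h4.trans (by omega)⟩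
    · intro X D hX hD hDX F hF
      have hsub : F ⊆ Pool.Agent.Q37.FZ.LS X D := by
        intro n hn
        obtain ⟨h1, h2, h3, h4⟩ := hF n hn
        exact Pool.Agent.Q37.FZ.mem_LS.2 ⟨⟨h1, h2⟩, h4⟩
      have hL1 : 1 ≤ Real.log X := by
        have : (2 : ℝ) ≤ D := by exact_mod_cast hD
        linarith
      have hL0 : 0 < Real.log X := by linarith
      have hD1 : (D : ℝ) ≤ Real.log X := by linarith
      refine (Nat.cast_le.2 (Finset.card_le_card hsub)).trans ((h X D hX (by omega) hDX).trans ?_)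
      have e : Real.log X ^ 2 = Real.log X ^ (1 / 2 : ℝ) * Real.log X ^ (3 / 2 : ℝ) := by
        rw [← Real.rpow_natCast, ← Real.rpow_add hL0]
        norm_num
      have h5 : (D : ℝ) ^ (1 / 2 : ℝ) ≤ Real.log X ^ (1 / 2 : ℝ) :=
        Real.rpow_le_rpow (Nat.cast_nonneg D) hD1 (by norm_num)
      calc C * (X * ((D : ℝ) ^ (1 / 2 : ℝ) / Real.log X ^ 2))
          ≤ C * (X * (Real.log X ^ (1 / 2 : ℝ) / Real.log X ^ 2)) := by gcongr
        _ = C * X / Real.log X ^ (3 / 2 : ℝ) := by
            rw [e]
            field_simp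
  refine atLevel_of (by norm_num) h1 fun m hm => ?_
  unfold LargeLoss at hm
  push Not at hm
  obtain ⟨h3, g, hg, hlt⟩ := hm
  refine ⟨h3, g, hg, ?_⟩
  have h4 : 4 * m ^ 2 + 1 - g ≤ ⌊Real.log m / 25⌋₊ := by
    rw [Nat.le_floor_iff (by positivity)]
    rcases le_total g (4 * m ^ 2 + 1) with h5 | h5
    · rw [Nat.cast_sub h5]
      push_cast
      exact hlt
    · rw [Nat.sub_eq_zero_of_le h5]
      have : 0 ≤ Real.log m := Real.log_natCast_nonneg m
      simp only [Nat.cast_zero]
      positivity
  omega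

end Pool.Agent.Results.MP_9227d9_nt.GoodApproximations
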