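import Pool.Agent.Q44.LossLog
import Pool.Agent.Q37.FZ.Exist

/-!
# The gcd recursion with `n (n + 2m)`: the size of the loss at most convergents of almost every real number

`f` is the first zero of the sequence `a(1) = 4 m²`, `a(n) = |a(n-1) - gcd(a(n-1), n (n + 2m))|`; its largest possible
place is `4 m² + 1`. Let `0 < δ ≤ 1` and `t < 2 - δ`. For almost every real number `α`, all integers `(u, v) ≠ (0, 0)`,
all `ε > 0` and all large `K` the positive integers `m = |u p + v q|` have a loss `4 m² + 1 - f > (log m) ^ t` for all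
convergents `p / q` of the continued fraction of `α` with `q < 2 ^ K`, with at most `K ^ (1 - δ + ε)` exceptions. The
same for the linear forms in the denominators and the numerators of the simultaneous approximations of Dirichlet's
quality of almost every point of `ℝ ^ d`, for most dyadic ranges of the denominators.
-/

set_option autoImplicit false

namespace Pool.Agent.Results.MP_9227d9_nt.MostApproximations

open Pool.Agent.Q44.CF

/-- `f` is the first zero of the sequence of the problem for `m` -/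
def FirstZero (m f : ℕ) : Prop :=
  ∃ a : ℕ → ℤ, a 1 = 4 * (m : ℤ) ^ 2 ∧
    (∀ n : ℕ, 2 ≤ n →
      a n = |a (n - 1) - ((Int.gcd (a (n - 1)) ((n : ℤ) * ((n : ℤ) + 2 * (m : ℤ)))) : ℤ)|) ∧
    IsLeast {n : ℕ | 1 ≤ n ∧ a n = 0} f

/-- the integer `m`, if it is positive, has a loss `4 m² + 1 - f > (log m) ^ t` -/
def LossAbove (t : ℝ) (m : ℕ) : Prop :=
  1 ≤ m → ∀ f : ℕ, FirstZero m f → Real.log m ^ t < 4 * (m : ℝ) ^ 2 + 1 - f

/-- **Theorem.** For `0 < δ ≤ 1` and `0 ≤ t < 2 - δ` the loss is larger than `(log m) ^ t` for most of the integers `m`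
given by the approximations of Dirichlet's quality of almost all real numbers and of almost all points of `ℝ ^ d`. -/
theorem result : ∀ δ t : ℝ, 0 < δ → δ ≤ 1 → 0 ≤ t → t < 2 - δ → AtMostApproximations δ (LossAbove t) := by
  classical
  intro δ t hδ hδ1 ht htδ
  obtain ⟨ε, hε⟩ : ∃ ε : ℝ, ε = (2 - δ - t) / (t + 1) := ⟨_, rfl⟩
  have hε0 : 0 < ε := by rw [hε]; exact div_pos (by linarith) (by linarith)
  have hε2 : t * (1 + ε) ≤ 2 - δ := by
    have h1 : (t + 1) * ε = 2 - δ - t := by rw [hε]; field_simp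
    nlinarith
  obtain ⟨C, hC, h⟩ := Pool.Agent.Q37.FZ.large ε hε0
  have h1 : LogFewU (((2 : ℕ) : ℝ) - t * (1 + ε)) (fun n =>
      (fun D m : ℕ => 1 ≤ m ∧ ∃ f, Pool.Agent.Q37.FZ.FirstZero m f ∧ 4 * m ^ 2 + 1 ≤ f + D)
      ⌊Real.log n ^ t⌋₊ n) := by
    refine fewU_of_bad (Bad := fun D m : ℕ => 1 ≤ m ∧ ∃ f, Pool.Agent.Q37.FZ.FirstZero m f ∧ 4 * m ^ 2 + 1 ≤ f + D)
      (C := C) ?_ (by linarith) ?_ ht
    · rintro D D' n hD ⟨h1, g, h3, h4⟩
      exact ⟨h1, g, h3, h4.trans (by omega)⟩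
    · intro X D hX hD F hF
      have hsub : F ⊆ Pool.Agent.Q37.FZ.LS X D := by
        intro n hn
        obtain ⟨h1, h2, h3, h4⟩ := hF n hn
        exact Pool.Agent.Q37.FZ.mem_LS.2 ⟨⟨h1, h2⟩, h4⟩
      rw [Real.rpow_natCast]
      refine (Nat.cast_le.2 (Finset.card_le_card hsub)).trans ((h X D hX hD).trans (le_of_eq ?_))
      ring
  have h2 : LogFewU δ (fun n => 1 ≤ n ∧ ∃ f, Pool.Agent.Q37.FZ.FirstZero n f ∧
      4 * n ^ 2 + 1 ≤ f + ⌊Real.log n ^ t⌋₊) := h1.mono (by push_cast; linarith)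
  refine atMost_of hδ.le hδ1 h2 fun m hm => ?_
  unfold LossAbove at hm
  push Not at hm
  obtain ⟨h3, g, hg, hlt⟩ := hm
  refine ⟨h3, g, hg, ?_⟩
  have h4 : 4 * m ^ 2 + 1 - g ≤ ⌊Real.log m ^ t⌋₊ := by
    rw [Nat.le_floor_iff (Real.rpow_nonneg (Real.log_natCast_nonneg m) _)]
    rcases le_total g (4 * m ^ 2 + 1) with h5 | h5
    · rw [Nat.cast_sub h5]
      push_cast
      exact hlt
    · rw [Nat.sub_eq_zero_of_le h5, Nat.cast_zero]
      exact Real.rpow_nonneg (Real.log_natCast_nonneg m) _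
  omega

end Pool.Agent.Results.MP_9227d9_nt.MostApproximations
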