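import Mathlib
import Pool.Agent.Q37.FZ.Exist

/-!
# The gcd recursion with `n (n + 2m)`: small losses of the first zero

In every residue class modulo `lcm (1, …, D + 1)` all large `m` whose first zero lies within `D` of
the largest possible place `4m² + 1` have the same loss; for every `ε > 0`, all `X ≥ 2` and
`1 ≤ D ≤ (log X) / 24` there are at most `C X D^ε / (log X)²` such `m ≤ X`.
-/

set_option autoImplicit false

namespace Pool.Agent.Results.MP_9227d9_nt.SmallLossesRare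

open Finset

/-- `f` is the first zero of the sequence of the problem for `m` -/
def FirstZero (m f : ℕ) : Prop :=
  ∃ a : ℕ → ℤ, a 1 = 4 * (m : ℤ) ^ 2 ∧
    (∀ n : ℕ, 2 ≤ n →
      a n = |a (n - 1) - ((Int.gcd (a (n - 1)) ((n : ℤ) * ((n : ℤ) + 2 * (m : ℤ)))) : ℤ)|) ∧
    IsLeast {n : ℕ | 1 ≤ n ∧ a n = 0} f

open Classical in
theorem result :
    (∃ m₀ : ℕ, ∀ D m m' f f' : ℕ, m₀ + D ≤ m → m₀ + D ≤ m' →
      (∀ q : ℕ, 1 ≤ q → q ≤ D + 1 → m ≡ m' [MOD q]) → FirstZero m f → FirstZero m' f' →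
      4 * m ^ 2 + 1 ≤ f + D → 4 * m' ^ 2 + 1 ≤ f' + D →
      4 * m ^ 2 + 1 - f = 4 * m' ^ 2 + 1 - f' ∧ (f + 1).Prime ∧ (f + 2 * m + 1).Prime) ∧
    (∀ ε : ℝ, 0 < ε → ∃ C : ℝ, 0 < C ∧ ∀ X D : ℕ, 2 ≤ X → 1 ≤ D → (D : ℝ) ≤ Real.log X / 24 →
      (((Finset.Icc 1 X).filter (fun m : ℕ => ∃ f : ℕ, FirstZero m f ∧
        4 * m ^ 2 + 1 ≤ f + D)).card : ℝ) ≤ C * X * (D : ℝ) ^ ε / Real.log X ^ 2) := by
  constructor
  · obtain ⟨m₀, h⟩ := Pool.Agent.Q37.FZ.same_class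
    refine ⟨m₀, fun D m m' f f' hm hm' hmod h1 h2 h3 h4 => h D m m' f f' hm hm' ?_ h1 h2 h3 h4⟩
    rw [Nat.modEq_iff_dvd, Nat.lcmUpto]
    have h5 : ((Finset.Icc 1 (D + 1)).lcm id : ℕ) ∣ ((m' : ℤ) - m).natAbs := by
      apply Finset.lcm_dvd
      intro q hq
      rw [Finset.mem_Icc] at hq
      have := (Nat.modEq_iff_dvd.1 (hmod q hq.1 hq.2))
      exact Int.natCast_dvd.1 this
    exact Int.natCast_dvd.2 h5
  · intro ε hε
    obtain ⟨C, hC, h⟩ := Pool.Agent.Q37.FZ.small ε hε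
    refine ⟨C, by linarith, fun X D hX hD hDX =>
      le_trans ?_ ((h X D hX hD hDX).trans (le_of_eq (by ring)))⟩
    rw [Nat.cast_le]
    apply Finset.card_le_card
    intro m hm
    rw [Finset.mem_filter, Finset.mem_Icc] at hm
    obtain ⟨h1, f, h2, h3⟩ := hm
    exact Pool.Agent.Q37.FZ.mem_LS.2 ⟨h1, f, h2, h3⟩

end Pool.Agent.Results.MP_9227d9_nt.SmallLossesRare
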