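import Mathlib
import Pool.Agent.Q37.FZ.Exist

/-!
# The gcd recursion with `n (n + 2m)`: the loss of the first zero for almost all `m`

For every `ε > 0`, all `X ≥ 2` and `D ≥ 1` at most `C X D^(1+ε) / (log X)²` of the `m ≤ X` have
their first zero within `D` of the largest possible place `4m² + 1`; for almost all `m ≤ X` the
first zero is earlier than that by more than `(log X)^(2-ε)`.
-/

set_option autoImplicit false

namespace Pool.Agent.Results.MP_9227d9_nt.TypicalLoss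

open Finset

/-- `f` is the first zero of the sequence of the problem for `m` -/
def FirstZero (m f : ℕ) : Prop :=
  ∃ a : ℕ → ℤ, a 1 = 4 * (m : ℤ) ^ 2 ∧
    (∀ n : ℕ, 2 ≤ n →
      a n = |a (n - 1) - ((Int.gcd (a (n - 1)) ((n : ℤ) * ((n : ℤ) + 2 * (m : ℤ)))) : ℤ)|) ∧
    IsLeast {n : ℕ | 1 ≤ n ∧ a n = 0} f

open Classical in
theorem result :
    (∀ ε : ℝ, 0 < ε → ∃ C : ℝ, 0 < C ∧ ∀ X D : ℕ, 2 ≤ X → 1 ≤ D →
      (((Finset.Icc 1 X).filter (fun m : ℕ => ∃ f : ℕ, FirstZero m f ∧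
        4 * m ^ 2 + 1 ≤ f + D)).card : ℝ) ≤ C * X * (D : ℝ) ^ (1 + ε) / Real.log X ^ 2) ∧
    (∀ ε : ℝ, 0 < ε → ε ≤ 1 → ∃ X₀ : ℕ, ∀ X : ℕ, X₀ ≤ X →
      (((Finset.Icc 1 X).filter (fun m : ℕ => ¬ ∃ f : ℕ, FirstZero m f ∧
        Real.log X ^ (2 - ε) < 4 * (m : ℝ) ^ 2 + 1 - f)).card : ℝ) ≤ ε * X) := by
  constructor
  · intro ε hε
    obtain ⟨C, hC, h⟩ := Pool.Agent.Q37.FZ.large ε hε
    refine ⟨C, by linarith, fun X D hX hD => le_trans ?_ ((h X D hX hD).trans (le_of_eq (by ring)))⟩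
    rw [Nat.cast_le]
    apply Finset.card_le_card
    intro m hm
    rw [Finset.mem_filter, Finset.mem_Icc] at hm
    obtain ⟨h1, f, h2, h3⟩ := hm
    exact Pool.Agent.Q37.FZ.mem_LS.2 ⟨h1, f, h2, h3⟩
  · exact Pool.Agent.Q37.FZ.almost_all

end Pool.Agent.Results.MP_9227d9_nt.TypicalLoss
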